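import Pool.Agent.H190R3.WeiCard

/-!
# The set-cofinality of the Weihrauch degrees is `2 ^ 𝔠`

`Problem` is the type of multi-valued functions on Baire space (`sol x` is the set of admissible
outputs at `x`, the domain consists of the points `x` with `sol x` nonempty; the empty problem is
allowed), preordered by Weihrauch reducibility; the functionals are the ones induced by computable
monotone word functions. `Degree` is the partial order of the equivalence classes. `IsCofinal` and
`Order.cof` (the least cardinality of a cofinal subset) are Mathlib's.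

Every problem `g` has only countably many problems below it which are single-valued functions with
domain the whole of Baire space: such a function `F` is determined by the two functionals of the
reduction to `g`, because all outputs of `g` on the translated input are sent to the value `F x`.
There are `2 ^ 𝔠` such functions, so a cofinal set has at least `2 ^ 𝔠` elements.
-/

set_option autoImplicit false

namespace Pool.Agent.Results.MP_62990a_lc.SetCofinality

open Set Cardinal Pool.Agent.H190R3.Wei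

/-- The single-valued problem given by a function from Baire space to Baire space. -/
def single (F : (ℕ → ℕ) → (ℕ → ℕ)) : Problem where
  sol x := {F x}

/-- Only countably many functions on Baire space are Weihrauch reducible to a given problem. -/
theorem countable_below (g : Problem) : {F : (ℕ → ℕ) → (ℕ → ℕ) | single F ≤ g}.Countable := by
  classical
  have h1 : ∀ F ∈ {F : (ℕ → ℕ) → (ℕ → ℕ) | single F ≤ g},
      ∃ m : {φ : List ℕ → List ℕ // IsMachine φ} × {φ : List ℕ → List ℕ // IsMachine φ},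
        Red m.1.1 m.2.1 (single F) g := by
    rintro F ⟨φ, ψ, hφ, hψ, hr⟩
    exact ⟨(⟨φ, hφ⟩, ⟨ψ, hψ⟩), hr⟩
  choose! m hm using h1
  refine Set.MapsTo.countable_of_injOn (f := m) (t := Set.univ) (fun _ _ => Set.mem_univ _) ?_
    Set.countable_univ
  intro F hF G hG hFG
  funext x
  obtain ⟨y, hy, ⟨z, hz⟩, h2⟩ := hm F hF x ⟨F x, rfl⟩
  obtain ⟨y', hy', -, h3⟩ := hm G hG x ⟨G x, rfl⟩
  rw [← hFG] at hy' h3
  obtain rfl := hy.unique hy'
  obtain ⟨w, hw, hw'⟩ := h2 z hz
  obtain ⟨v, hv, hv'⟩ := h3 z hz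
  have h4 : w = F x := hw
  have h5 : v = G x := hv
  rw [← h4, ← h5]
  exact hw'.unique hv'

theorem mk_degree_le : #Degree ≤ 2 ^ 𝔠 := by
  have h1 : #Degree ≤ #Problem := Cardinal.mk_le_of_surjective
    (f := toAntisymmetrization (· ≤ ·)) (by
      intro d; exact ⟨ofAntisymmetrization (· ≤ ·) d, by simp⟩)
  have h2 : #Problem ≤ #((ℕ → ℕ) → Set (ℕ → ℕ)) :=
    Cardinal.mk_le_of_injective (f := Problem.sol) (fun f g h => Problem.ext h)
  have h3 : #((ℕ → ℕ) → Set (ℕ → ℕ)) = 2 ^ 𝔠 := by
    rw [← Cardinal.power_def, Cardinal.mk_set, mk_baire, ← Cardinal.power_mul,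
      Cardinal.mul_eq_self Cardinal.aleph0_le_continuum]
  exact (h1.trans h2).trans h3.le

theorem mk_functions : #((ℕ → ℕ) → (ℕ → ℕ)) = 2 ^ 𝔠 := by
  rw [← Cardinal.power_def, mk_baire, ← Cardinal.two_power_aleph0, ← Cardinal.power_mul,
    Cardinal.two_power_aleph0, Cardinal.aleph0_mul_eq Cardinal.aleph0_le_continuum]

theorem le_mk_of_isCofinal {S : Set Degree} (hS : IsCofinal S) : 2 ^ 𝔠 ≤ #S := by
  by_contra hlt
  push Not at hlt
  have h1 : (Set.univ : Set ((ℕ → ℕ) → (ℕ → ℕ))) ⊆
      ⋃ d : S, {F : (ℕ → ℕ) → (ℕ → ℕ) | single F ≤ ofAntisymmetrization (· ≤ ·) d.1} := by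
    intro F _
    obtain ⟨d, hd, hFd⟩ := hS (toAntisymmetrization (· ≤ ·) (single F))
    refine Set.mem_iUnion.2 ⟨⟨d, hd⟩, ?_⟩
    show single F ≤ ofAntisymmetrization (· ≤ ·) d
    rw [← toAntisymmetrization_le_toAntisymmetrization_iff]
    simpa using hFd
  have h2 : #((ℕ → ℕ) → (ℕ → ℕ)) ≤ #S * ℵ₀ := by
    have h3 := (Cardinal.mk_le_mk_of_subset h1).trans (Cardinal.mk_iUnion_le _)
    rw [Cardinal.mk_univ] at h3
    refine h3.trans ?_
    gcongr
    exact ciSup_le' fun d => (countable_below _).le_aleph0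
  rw [mk_functions] at h2
  have h4 : (ℵ₀ : Cardinal.{0}) < 2 ^ 𝔠 :=
    Cardinal.aleph0_le_continuum.trans_lt (Cardinal.cantor _)
  have h5 : #S * ℵ₀ < 2 ^ 𝔠 := Cardinal.mul_lt_of_lt h4.le hlt h4
  exact absurd h2 (not_le.2 h5)

/-- Every cofinal set of Weihrauch degrees has cardinality `2 ^ 𝔠`; the least cardinality of a
cofinal set of Weihrauch degrees is `2 ^ 𝔠`. -/
theorem result :
    (∀ f g : Problem, f ≤ g ↔ ∃ φ ψ : List ℕ → List ℕ, IsMachine φ ∧ IsMachine ψ ∧
      ∀ x, (f.sol x).Nonempty → ∃ y, Maps φ x y ∧ (g.sol y).Nonempty ∧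
        ∀ z ∈ g.sol y, ∃ w ∈ f.sol x, Maps ψ (pair x z) w) ∧
    (∀ S : Set Degree, IsCofinal S → #S = 2 ^ 𝔠) ∧ Order.cof Degree = 2 ^ 𝔠 := by
  refine ⟨fun f g => Iff.rfl, fun S hS => ?_, ?_⟩
  · exact le_antisymm ((Cardinal.mk_set_le S).trans mk_degree_le) (le_mk_of_isCofinal hS)
  · exact le_antisymm ((Order.cof_le_cardinalMk _).trans mk_degree_le)
      (Order.le_cof_iff.2 fun S hS => le_mk_of_isCofinal hS)

end Pool.Agent.Results.MP_62990a_lc.SetCofinality
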